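import Pool.Agent.Lib.MP_4d240a_al.Example

set_option autoImplicit false

universe u

namespace Pool.Agent.Results.MP_4d240a_al.McCoyNotDischinger

open Polynomial

/-- `S` is right McCoy: if nonzero polynomials over `S` satisfy `f * g = 0` then `f * s = 0`
for some nonzero element `s` of `S`. -/
def RightMcCoy (S : Type u) [Ring S] : Prop :=
  ∀ f g : S[X], f ≠ 0 → g ≠ 0 → f * g = 0 → ∃ s : S, s ≠ 0 ∧ f * C s = 0

/-- `S` is left McCoy: if nonzero polynomials over `S` satisfy `f * g = 0` then `s * g = 0`
for some nonzero element `s` of `S`. -/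
def LeftMcCoy (S : Type u) [Ring S] : Prop :=
  ∀ f g : S[X], f ≠ 0 → g ≠ 0 → f * g = 0 → ∃ s : S, s ≠ 0 ∧ C s * g = 0

/-- `a` is right strongly regular. -/
def RightStronglyRegular {S : Type u} [Ring S] (a : S) : Prop := ∃ y : S, a = a ^ 2 * y

/-- `a` is left strongly regular. -/
def LeftStronglyRegular {S : Type u} [Ring S] (a : S) : Prop := ∃ y : S, a = y * a ^ 2

/-- `S` is right Dischinger: every right strongly regular element is strongly regular. -/
def RightDischinger (S : Type u) [Ring S] : Prop :=
  ∀ a : S, RightStronglyRegular a → RightStronglyRegular a ∧ LeftStronglyRegular a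

/-- Over every integral domain `k` there is a `k`-algebra with identity which is left and right
McCoy but not right Dischinger. -/
theorem result (k : Type u) [CommRing k] [IsDomain k] :
    ∃ (S : Type u) (_ : Ring S) (_ : Algebra k S),
      RightMcCoy S ∧ LeftMcCoy S ∧ ¬ RightDischinger S := by
  open Pool.Agent.Lib.MP_4d240a_al in
  refine ⟨Sk k, inferInstance, inferInstance, ?_, ?_, ?_⟩
  · intro f g hf hg h
    exact ⟨eb, eb_ne, (right_left f g hf hg h).1⟩
  · intro f g hf hg h
    obtain ⟨m, hm⟩ := (right_left f g hf hg h).2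
    exact ⟨ea ^ m, ea_pow_ne m, hm⟩
  · intro h
    obtain ⟨z, hz⟩ := (h ea ⟨ey, ea_eq⟩).2
    exact ea_ne z hz

end Pool.Agent.Results.MP_4d240a_al.McCoyNotDischinger
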